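import Pool.Agent.Y997.NW.Stm

/-!
# NW-LINE: a curve containing a disc of a line coincides with the line near some point of the disc
(helper259, for project NW of helper997)
-/

set_option autoImplicit false

open MeasureTheory Set Topology Filter
open scoped ContDiff NNReal ENNReal

namespace Pool.Agent.Y259.NW

open Pool.Agent.W581.Cyc Pool.Agent.Y997.NW Metric

/-- one variable: a zero close to a zero of order `k` -/
theorem taylor_low {g : ℂ → ℂ} {R M : ℝ} {k : ℕ} (hR : 0 < R) (hM0 : 0 ≤ M)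
    (hg : DiffContOnCl ℂ g (ball 0 R))
    (hM : ∀ z ∈ sphere (0 : ℂ) R, ‖g z‖ ≤ M) (h0 : ∀ n < k, iteratedDeriv n g 0 = 0) {y : ℂ}
    (hy : y ≠ 0) (hy2 : ‖y‖ ≤ R / 2) (hgy : g y = 0) :
    ‖iteratedDeriv k g 0‖ ≤ k.factorial * (2 * M / R ^ (k + 1)) * ‖y‖ := by
  have hyb : y ∈ ball (0 : ℂ) R := by
    rw [mem_ball_zero_iff]
    linarith
  have hs := Complex.hasSum_taylorSeries_on_ball hg.differentiableOn hyb
  rw [hgy] at hs
  have hy0 : 0 < ‖y‖ := norm_pos_iff.2 hy
  set t : ℕ → ℂ := fun n => ((n.factorial : ℂ))⁻¹ • (y - 0) ^ n • iteratedDeriv n g 0 with ht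
  set x : ℝ := ‖y‖ / R with hx
  have hx0 : 0 ≤ x := by positivity
  have hx1 : x ≤ 1 / 2 := by
    rw [hx, div_le_iff₀ hR]
    linarith
  have htn : ∀ n, ‖t n‖ ≤ M * x ^ n := by
    intro n
    have h1 := Complex.norm_iteratedDeriv_le_of_forall_mem_sphere_norm_le n hR hg hM
    rw [ht]
    simp only [sub_zero, smul_eq_mul, norm_mul, norm_inv, norm_pow, Complex.norm_natCast]
    have hf : (0 : ℝ) < n.factorial := by exact_mod_cast Nat.factorial_pos n
    calc (n.factorial : ℝ)⁻¹ * (‖y‖ ^ n * ‖iteratedDeriv n g 0‖)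
        ≤ (n.factorial : ℝ)⁻¹ * (‖y‖ ^ n * (n.factorial * M / R ^ n)) := by gcongr
      _ = M * x ^ n := by
          rw [hx, div_pow]
          field_simp
  have hs2 := (hasSum_nat_add_iff' (k + 1)).2 hs
  have hsum : ∑ i ∈ Finset.range (k + 1), t i = t k := by
    rw [Finset.sum_range_succ, Finset.sum_eq_zero, zero_add]
    intro i hi
    rw [ht]
    simp only
    rw [h0 i (Finset.mem_range.1 hi), smul_zero, smul_zero]
  have hgeo : HasSum (fun n : ℕ => M * x ^ (k + 1) * x ^ n) (M * x ^ (k + 1) * (1 - x)⁻¹) :=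
    (hasSum_geometric_of_lt_one hx0 (by linarith)).mul_left _
  have hb := hs2.norm_le_of_bounded hgeo (fun n => by
    refine (htn (n + (k + 1))).trans (le_of_eq ?_)
    rw [pow_add]
    ring)
  change ‖(0 : ℂ) - ∑ i ∈ Finset.range (k + 1), t i‖ ≤ _ at hb
  rw [hsum, zero_sub, norm_neg] at hb
  have h2 : (1 - x)⁻¹ ≤ 2 := by
    rw [inv_le_comm₀ (by linarith) (by norm_num)]
    linarith
  have h3 : ‖t k‖ ≤ M * x ^ (k + 1) * 2 := hb.trans (by gcongr)
  have h4 : ‖t k‖ = (k.factorial : ℝ)⁻¹ * (‖y‖ ^ k * ‖iteratedDeriv k g 0‖) := by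
    rw [ht]
    simp only [sub_zero, smul_eq_mul, norm_mul, norm_inv, norm_pow, Complex.norm_natCast]
  rw [h4, hx, div_pow] at h3
  have hf : (0 : ℝ) < k.factorial := by exact_mod_cast Nat.factorial_pos k
  have hyk : 0 < ‖y‖ ^ k := by positivity
  have h5 : ‖y‖ ^ k * ‖iteratedDeriv k g 0‖ ≤
      ‖y‖ ^ k * (k.factorial * (2 * M / R ^ (k + 1)) * ‖y‖) := by
    rw [inv_mul_le_iff₀ hf] at h3
    calc ‖y‖ ^ k * ‖iteratedDeriv k g 0‖
        ≤ k.factorial * (M * (‖y‖ ^ (k + 1) / R ^ (k + 1)) * 2) := h3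
      _ = ‖y‖ ^ k * (k.factorial * (2 * M / R ^ (k + 1)) * ‖y‖) := by
          rw [pow_succ ‖y‖ k]
          ring
  exact le_of_mul_le_mul_left h5 hyk

/-- a function of two variables, not identically zero, has near some point of the first axis no
zeros off the axis -/
theorem key (F : ℂ × ℂ → ℂ) (r : ℝ) (hr : 0 < r)
    (hF : ∀ x y : ℂ, ‖x‖ < r → ‖y‖ < r → DifferentiableAt ℂ F (x, y))
    (hne : ∃ x y : ℂ, ‖x‖ < r ∧ ‖y‖ < r ∧ F (x, y) ≠ 0) :
    ∃ x₁ : ℂ, ‖x₁‖ < r ∧ ∃ δ : ℝ, 0 < δ ∧ ∀ x y : ℂ, ‖x - x₁‖ < δ → y ≠ 0 → ‖y‖ < δ →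
      F (x, y) ≠ 0 := by
  classical
  have hslice : ∀ x : ℂ, ‖x‖ < r → DifferentiableOn ℂ (fun y => F (x, y)) (ball 0 r) := by
    intro x hx y hy
    rw [mem_ball_zero_iff] at hy
    have h1 : DifferentiableAt ℂ (fun y : ℂ => (x, y)) y :=
      (differentiableAt_const x).prodMk differentiableAt_id
    exact ((hF x y hx hy).comp y h1).differentiableWithinAt
  have hexn : ∃ n : ℕ, ∃ x : ℂ, ‖x‖ < r ∧ iteratedDeriv n (fun y => F (x, y)) 0 ≠ 0 := by
    by_contra hcon
    push Not at hcon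
    obtain ⟨x, y, hx, hy, hxy⟩ := hne
    apply hxy
    have hs := Complex.hasSum_taylorSeries_on_ball (hslice x hx) (mem_ball_zero_iff.2 hy)
    have h0 : HasSum (fun n : ℕ => ((n.factorial : ℂ))⁻¹ • (y - 0) ^ n •
        iteratedDeriv n (fun y => F (x, y)) 0) 0 := by
      have h1 : (fun n : ℕ => ((n.factorial : ℂ))⁻¹ • (y - 0) ^ n •
          iteratedDeriv n (fun y => F (x, y)) 0) = fun _ => 0 := by
        funext n
        rw [hcon n x hx, smul_zero, smul_zero]
      rw [h1]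
      exact hasSum_zero
    exact hs.unique h0
  obtain ⟨x₁, hx₁, hk⟩ := Nat.find_spec hexn
  have hmin : ∀ n < Nat.find hexn, ∀ x : ℂ, ‖x‖ < r →
      iteratedDeriv n (fun y => F (x, y)) 0 = 0 := by
    intro n hn x hx
    by_contra hcon
    exact Nat.find_min hexn hn ⟨x, hx, hcon⟩
  generalize Nat.find hexn = k at hk hmin
  clear hexn
  have hR : 0 < r / 2 := by linarith
  obtain ⟨d, hd⟩ : ∃ d : ℝ, d = (r - ‖x₁‖) / 2 := ⟨_, rfl⟩
  have hd0 : 0 < d := by
    rw [hd]
    linarith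
  have hxd : ∀ x ∈ closedBall x₁ d, ‖x‖ < r := by
    intro x hx
    rw [mem_closedBall, dist_eq_norm] at hx
    have h1 : ‖x‖ ≤ ‖x - x₁‖ + ‖x₁‖ := by
      simpa using norm_add_le (x - x₁) x₁
    rw [hd] at hx
    linarith
  have hK : IsCompact (closedBall x₁ d ×ˢ closedBall (0 : ℂ) (r / 2)) :=
    (isCompact_closedBall _ _).prod (isCompact_closedBall _ _)
  have hcont : ContinuousOn F (closedBall x₁ d ×ˢ closedBall (0 : ℂ) (r / 2)) := by
    rintro ⟨x, y⟩ ⟨hx, hy⟩
    have hy' : ‖y‖ ≤ r / 2 := mem_closedBall_zero_iff.1 hy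
    exact (hF x y (hxd x hx) (by linarith)).continuousAt.continuousWithinAt
  obtain ⟨M, hM⟩ := hK.exists_bound_of_continuousOn hcont
  have hx₁m : x₁ ∈ closedBall x₁ d := mem_closedBall_self hd0.le
  have hM0 : 0 ≤ M := (norm_nonneg _).trans (hM (x₁, 0) ⟨hx₁m, mem_closedBall_self hR.le⟩)
  have hdc : ∀ x : ℂ, ‖x‖ < r → DiffContOnCl ℂ (fun y => F (x, y)) (ball 0 (r / 2)) := by
    intro x hx
    exact (hslice x hx).diffContOnCl_ball (closedBall_subset_ball (by linarith))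
  have hcd : ∀ x : ℂ, ‖x‖ < r → ContDiffAt ℂ k (fun y => F (x, y)) 0 := by
    intro x hx
    exact ((hslice x hx).contDiffOn isOpen_ball).contDiffAt
      (isOpen_ball.mem_nhds (mem_ball_self hr))
  have huc := hK.uniformContinuousOn_of_continuous hcont
  obtain ⟨c, hc⟩ : ∃ c : ℝ, c = ‖iteratedDeriv k (fun y => F (x₁, y)) 0‖ / 2 := ⟨_, rfl⟩
  have hc0 : 0 < c := by
    rw [hc]
    have := norm_pos_iff.2 hk
    linarith
  have hkf : (0 : ℝ) < k.factorial := by exact_mod_cast Nat.factorial_pos k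
  -- continuity of the coefficient
  obtain ⟨ε, hε⟩ : ∃ ε : ℝ, ε = c * (r / 2) ^ k / k.factorial := ⟨_, rfl⟩
  have hε0 : 0 < ε := by
    rw [hε]
    positivity
  obtain ⟨δ₁, hδ₁, hδ₁'⟩ := Metric.uniformContinuousOn_iff.1 huc ε hε0
  have hlow : ∀ x : ℂ, ‖x - x₁‖ < min d δ₁ → c ≤ ‖iteratedDeriv k (fun y => F (x, y)) 0‖ := by
    intro x hx
    have hxm : x ∈ closedBall x₁ d := by
      rw [mem_closedBall, dist_eq_norm]
      exact (hx.trans_le (min_le_left _ _)).le
    have hxr := hxd x hxm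
    have h1 : ‖iteratedDeriv k ((fun y => F (x, y)) - fun y => F (x₁, y)) 0‖ ≤
        k.factorial * ε / (r / 2) ^ k := by
      refine Complex.norm_iteratedDeriv_le_of_forall_mem_sphere_norm_le k hR
        ((hdc x hxr).sub (hdc x₁ hx₁)) ?_
      intro z hz
      have hz' := sphere_subset_closedBall hz
      have h2 := hδ₁' (x, z) ⟨hxm, hz'⟩ (x₁, z) ⟨hx₁m, hz'⟩ (by
        rw [Prod.dist_eq, dist_self, max_eq_left dist_nonneg, dist_eq_norm]
        exact hx.trans_le (min_le_right _ _))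
      rw [dist_eq_norm] at h2
      exact h2.le
    rw [iteratedDeriv_sub (hcd x hxr) (hcd x₁ hx₁)] at h1
    have h3 : k.factorial * ε / (r / 2) ^ k = c := by
      rw [hε]
      field_simp
    rw [h3] at h1
    have h4 : ‖iteratedDeriv k (fun y => F (x₁, y)) 0‖ ≤
        ‖iteratedDeriv k (fun y => F (x, y)) 0‖ +
          ‖iteratedDeriv k (fun y => F (x, y)) 0 - iteratedDeriv k (fun y => F (x₁, y)) 0‖ := by
      have h5 := norm_sub_le (iteratedDeriv k (fun y => F (x, y)) 0)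
        (iteratedDeriv k (fun y => F (x, y)) 0 - iteratedDeriv k (fun y => F (x₁, y)) 0)
      rwa [sub_sub_cancel] at h5
    have h6 : ‖iteratedDeriv k (fun y => F (x₁, y)) 0‖ = 2 * c := by
      rw [hc]
      ring
    linarith
  obtain ⟨B, hB⟩ : ∃ B : ℝ, B = k.factorial * (2 * M / (r / 2) ^ (k + 1)) := ⟨_, rfl⟩
  have hB0 : 0 ≤ B := by
    rw [hB]
    positivity
  refine ⟨x₁, hx₁, min (min d δ₁) (min (r / 4) (c / (B + 1))), by positivity, ?_⟩
  intro x y hx hy hyl hzero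
  have hx' : ‖x - x₁‖ < min d δ₁ := hx.trans_le (min_le_left _ _)
  have hxm : x ∈ closedBall x₁ d := by
    rw [mem_closedBall, dist_eq_norm]
    exact (hx'.trans_le (min_le_left _ _)).le
  have hxr := hxd x hxm
  have hy1 : ‖y‖ < r / 4 := hyl.trans_le ((min_le_right _ _).trans (min_le_left _ _))
  have hy2 : ‖y‖ < c / (B + 1) := hyl.trans_le ((min_le_right _ _).trans (min_le_right _ _))
  have h1 := taylor_low (g := fun y => F (x, y)) (k := k) hR hM0 (hdc x hxr) (fun z hz =>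
    hM (x, z) ⟨hxm, sphere_subset_closedBall hz⟩) (fun n hn => hmin n hn x hxr) hy
    (by linarith) hzero
  rw [← hB] at h1
  have h2 := hlow x hx'
  rw [lt_div_iff₀ (by linarith)] at hy2
  have := norm_nonneg y
  nlinarith

/-- the first coordinate -/
noncomputable def cx (q w : C2) : ℂ := -((w - q) 1)

/-- the second coordinate -/
noncomputable def cy (q w : C2) : ℂ := (w - q) 0 + 2 * (w - q) 1

/-- the parametrisation -/
noncomputable def Ph (q : C2) (x y : ℂ) : C2 := q + x • dir 0 + y • WithLp.toLp 2 ![1, 0]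

theorem Ph_c (q w : C2) : Ph q (cx q w) (cy q w) = w := by
  ext i
  fin_cases i
  · simp [Ph, cx, cy, dir]
    ring
  · simp [Ph, cx, cy, dir]

theorem Ph_zero (q : C2) (x : ℂ) : Ph q x 0 = q + x • dir 0 := by
  simp [Ph]

theorem cx_line (q : C2) (x : ℂ) : cx q (q + x • dir 0) = x := by
  simp [cx, dir]

theorem cy_line (q : C2) (x : ℂ) : cy q (q + x • dir 0) = 0 := by
  simp [cy, dir]
  ring

theorem ell_cy (q w : C2) : ell w = ell q + cy q w := by
  simp [ell, cy]
  ring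

theorem ell_line (q : C2) (x : ℂ) : ell (q + x • dir 0) = ell q := by
  rw [ell_cy q, cy_line, add_zero]

theorem cont_cx (q : C2) : Continuous (cx q) := by
  unfold cx
  fun_prop

theorem cont_cy (q : C2) : Continuous (cy q) := by
  unfold cy
  fun_prop

theorem diff_Ph (q : C2) : Differentiable ℂ (fun z : ℂ × ℂ => Ph q z.1 z.2) := by
  unfold Ph
  fun_prop

theorem t_LINE : S_LINE := by
  intro U V q ρ hU hV hpure hρ hdisc
  have hqV : q ∈ V := by
    have h := hdisc 0 (by simpa using hρ)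
    simpa using h
  have hqU : q ∈ U := hV.subset hqV
  obtain ⟨W, hW, hqW, m, f, hf, hVW⟩ := hV.zeros q hqU
  -- a bidisc in `W`
  obtain ⟨r, hr, hrρ, hrW⟩ : ∃ r : ℝ, 0 < r ∧ r ≤ ρ ∧
      ∀ x y : ℂ, ‖x‖ < r → ‖y‖ < r → Ph q x y ∈ W := by
    have h1 : Ph q 0 0 = q := by simp [Ph]
    have h2 : (fun z : ℂ × ℂ => Ph q z.1 z.2) ⁻¹' W ∈ 𝓝 ((0 : ℂ), (0 : ℂ)) := by
      refine (diff_Ph q).continuous.continuousAt.preimage_mem_nhds ?_
      show W ∈ 𝓝 (Ph q 0 0)
      rw [h1]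
      exact hW.mem_nhds hqW
    obtain ⟨e, he, hsub⟩ := Metric.mem_nhds_iff.1 h2
    refine ⟨min e ρ, lt_min he hρ, min_le_right _ _, fun x y hx hy => ?_⟩
    have h3 : ((x, y) : ℂ × ℂ) ∈ ball ((0 : ℂ), (0 : ℂ)) e := by
      rw [mem_ball, Prod.dist_eq, dist_zero_right, dist_zero_right]
      exact max_lt (hx.trans_le (min_le_left _ _)) (hy.trans_le (min_le_left _ _))
    exact hsub h3
  by_cases hall : ∀ j : Fin m, ∀ x y : ℂ, ‖x‖ < r → ‖y‖ < r → f j (Ph q x y) = 0
  · exfalso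
    obtain ⟨B, hB⟩ : ∃ B : Set C2, B = {w | ‖cx q w‖ < r ∧ ‖cy q w‖ < r} := ⟨_, rfl⟩
    have hBo : IsOpen B := by
      rw [hB]
      exact (isOpen_lt (cont_cx q).norm continuous_const).inter
        (isOpen_lt (cont_cy q).norm continuous_const)
    have hqB : q ∈ B := by
      rw [hB]
      simp [cx, cy, hr]
    have hBV : B ⊆ V := by
      intro w hw
      rw [hB] at hw
      have h1 := hrW _ _ hw.1 hw.2
      rw [Ph_c] at h1
      have h2 : w ∈ {w ∈ W | ∀ j, f j w = 0} := by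
        refine ⟨h1, fun j => ?_⟩
        have h3 := hall j _ _ hw.1 hw.2
        rwa [Ph_c] at h3
      rw [← hVW] at h2
      exact h2.1
    obtain ⟨w, hwB, hwR⟩ := mem_closure_iff.1 (hpure hqV) B hBo hqB
    obtain ⟨hwV, W', hW', hwW', g, hg, hg', hVW'⟩ := hwR
    apply hg'
    have h1 : g =ᶠ[𝓝 w] fun _ => 0 := by
      filter_upwards [hBo.mem_nhds hwB, hW'.mem_nhds hwW'] with z hz1 hz2
      have h2 : z ∈ V ∩ W' := ⟨hBV hz1, hz2⟩
      rw [hVW'] at h2
      exact h2.2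
    rw [h1.fderiv_eq]
    simp
  · push Not at hall
    obtain ⟨j, x₀, y₀, hx₀, hy₀, hne⟩ := hall
    obtain ⟨x₁, hx₁, δ, hδ, hkey⟩ := key (fun z => f j (Ph q z.1 z.2)) r hr (by
      intro x y hx hy
      have h1 : DifferentiableAt ℂ (f j) (Ph q x y) :=
        (hf j _ (hrW x y hx hy)).differentiableAt
      exact DifferentiableAt.comp (g := f j) (f := fun z : ℂ × ℂ => Ph q z.1 z.2) (x, y) h1
        ((diff_Ph q) (x, y))) ⟨x₀, y₀, hx₀, hy₀, hne⟩
    refine ⟨x₁, hx₁.trans_le hrρ, {w | ‖cx q w - x₁‖ < δ ∧ ‖cy q w‖ < δ ∧ ‖cx q w‖ < r ∧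
      ‖cy q w‖ < r}, ?_, ?_⟩
    · apply IsOpen.mem_nhds
      · exact (isOpen_lt ((cont_cx q).sub continuous_const).norm continuous_const).inter
          ((isOpen_lt (cont_cy q).norm continuous_const).inter
          ((isOpen_lt (cont_cx q).norm continuous_const).inter
          (isOpen_lt (cont_cy q).norm continuous_const)))
      · refine ⟨?_, ?_, ?_, ?_⟩
        · rw [cx_line, sub_self, norm_zero]
          exact hδ
        · rw [cy_line, norm_zero]
          exact hδ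
        · rw [cx_line]
          exact hx₁
        · rw [cy_line, norm_zero]
          exact hr
    · rw [ell_line]
      ext w
      constructor
      · rintro ⟨hwV, hw⟩
        refine ⟨hw, ?_⟩
        by_contra hcon
        have hy : cy q w ≠ 0 := by
          intro h
          apply hcon
          rw [ell_cy q, h, add_zero]
        apply hkey (cx q w) (cy q w) hw.1 hy hw.2.1
        have h1 := hrW _ _ hw.2.2.1 hw.2.2.2
        rw [Ph_c] at h1
        have h2 : w ∈ V ∩ W := ⟨hwV, h1⟩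
        rw [hVW] at h2
        show f j (Ph q (cx q w) (cy q w)) = 0
        rw [Ph_c]
        exact h2.2 j
      · rintro ⟨hw, hell⟩
        refine ⟨?_, hw⟩
        have hy : cy q w = 0 := by
          have h1 := ell_cy q w
          rw [hell] at h1
          simpa using h1.symm
        have h2 := Ph_c q w
        rw [hy, Ph_zero] at h2
        rw [← h2]
        exact hdisc _ (hw.2.2.1.trans_le hrρ)

end Pool.Agent.Y259.NW
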